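import Pool.Agent.Lib.MP_6d445e_gt.Iface

/-!
# SGS: strongly generic conditions of the forcing of infinite sets modulo finite sets
-/

universe u v w

open Cardinal Filter

namespace Pool.Agent.Lib.MP_6d445e_gt.H95

open Pool.Agent.Lib.MP_100a6c_lc
open Pool.Agent.Lib.MP_c5d73d_lc.F (pr)
open Pool.Agent.Lib.MP_e6fef2_lc

/-- Build a condition from an infinite set. -/
def mkSw (s : Set ℕ) (h : s.Infinite) : Sw.{u} := ⟨⟨s⟩, h⟩

theorem mkSw_S (s : Set ℕ) (h : s.Infinite) : (mkSw.{u} s h).S = s := rfl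

/-- Decreasing sequences have pseudointersections. -/
theorem exists_pseudo (s : ℕ → Sw.{u}) (h : ∀ n, s (n + 1) ≤ s n) :
    ∃ s' : Sw.{u}, ∀ n, s' ≤ s n := by
  have hanti : Antitone s := antitone_nat_of_succ_le h
  have hinf : ∀ n, {k | ∀ j ≤ n, k ∈ (s j).S}.Infinite := by
    intro n
    have h1 : ((s n).S \ ⋃ j ∈ Finset.range (n + 1), ((s n).S \ (s j).S)).Infinite := by
      refine (s n).infinite.sdiff ?_
      refine Set.Finite.biUnion (Finset.finite_toSet _) fun j hj => ?_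
      rw [Finset.mem_coe, Finset.mem_range] at hj
      exact (Sw.le_def _ _).1 (hanti (by omega : j ≤ n))
    refine h1.mono ?_
    rintro k ⟨hk, hk'⟩ j hj
    by_contra hcon
    apply hk'
    simp only [Set.mem_iUnion]
    exact ⟨j, Finset.mem_range.2 (by omega), hk, hcon⟩
  obtain ⟨φ, hφ, hP⟩ := Filter.extraction_forall_of_frequently
    (P := fun n k => ∀ j ≤ n, k ∈ (s j).S) (fun n => Nat.frequently_atTop_iff_infinite.2 (hinf n))
  refine ⟨mkSw (Set.range φ) (Set.infinite_range_of_injective hφ.injective), fun n => ?_⟩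
  rw [Sw.le_def, mkSw_S]
  refine ((Finset.range n).image φ).finite_toSet.subset ?_
  rintro _ ⟨⟨k, rfl⟩, hk⟩
  rw [Finset.coe_image]
  refine ⟨k, ?_, rfl⟩
  rw [Finset.coe_range]
  by_contra hcon
  exact hk (hP k n (not_lt.1 hcon))

theorem sgc_sw : SGC Sw.{u} := by
  classical
  obtain ⟨-, hcount, -, -, -, -, hfun2, -⟩ := all_club.{u}
  let F : Set Sw.{u} → Sw.{u} → Sw.{u} := fun D p =>
    if h : ∀ p, ∃ q ≤ p, q ∈ D then (h p).choose else p
  have hF : ∀ D p, F D p ≤ p ∧ ((∀ p, ∃ q ≤ p, q ∈ D) → F D p ∈ D) := by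
    intro D p
    by_cases h : ∀ p, ∃ q ≤ p, q ∈ D
    · have h1 : F D p = (h p).choose := dif_pos h
      rw [h1]
      exact ⟨(h p).choose_spec.1, fun _ => (h p).choose_spec.2⟩
    · have h1 : F D p = p := dif_neg h
      rw [h1]
      exact ⟨le_rfl, fun h' => absurd h' h⟩
  unfold SGC
  filter_upwards [hcount, hfun2 _ _ _ F] with N hN hNF s hs
  have hcD : {D : Set Sw.{u} | In N D}.Countable := by
    refine Set.Countable.preimage_of_injOn (f := fun D : Set Sw.{u} => (⟨Set Sw.{u}, D⟩ : El.{u}))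
      hN ?_
    intro D _ D' _ h
    simpa using h
  rcases Set.eq_empty_or_nonempty {D : Set Sw.{u} | In N D} with he | hne
  · refine ⟨s, le_rfl, fun D hD => ?_⟩
    exact absurd hD (Set.eq_empty_iff_forall_notMem.1 he D)
  · obtain ⟨D, hD⟩ := hcD.exists_eq_range hne
    have hDN : ∀ n, In N (D n) := fun n => by
      have : D n ∈ {D : Set Sw.{u} | In N D} := by rw [hD]; exact ⟨n, rfl⟩
      exact this
    let p : ℕ → Sw.{u} := fun n => Nat.rec s (fun n p => F (D n) p) n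
    have hpN : ∀ n, In N (p n) := by
      intro n
      induction n with
      | zero => exact hs
      | succ n ih => exact hNF _ _ (hDN n) ih
    obtain ⟨s', hs'⟩ := exists_pseudo p fun n => (hF (D n) (p n)).1
    refine ⟨s', hs' 0, fun E hE hdense => ?_⟩
    have hE' : E ∈ Set.range D := by rw [← hD]; exact hE
    obtain ⟨n, rfl⟩ := hE'
    exact ⟨p (n + 1), (hF (D n) (p n)).2 hdense, hpN (n + 1), hs' (n + 1)⟩

theorem exists_dec (b : H1.RO Sw.{u}) (p : Sw.{u}) : ∃ q ≤ p, pr q ≤ b ∨ pr q ≤ bᶜ := by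
  obtain ⟨h1, -, -, h4, h5, h6, -, -⟩ := Pool.Agent.Lib.MP_c5d73d_lc.F.H62.roapi.{u} Sw.{u}
  by_cases h : pr p ⊓ b = ⊥
  · refine ⟨p, le_rfl, Or.inr ?_⟩
    rw [le_compl_iff_disjoint_right, disjoint_iff]
    exact h
  · obtain ⟨q, hq⟩ := h5 _ h
    have h7 : pr q ≤ pr p := hq.trans inf_le_left
    have h8 := (Pool.Agent.Lib.MP_c5d73d_lc.F.H62.mem_pr_iff p q).1 ((h1 q _).1 h7)
    obtain ⟨r, hr, hrp⟩ := h8 q le_rfl
    exact ⟨r, hrp, Or.inl ((h6 _ _ hr).trans (hq.trans inf_le_right))⟩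

theorem pp_id : PP (fun x : H1.RO Sw.{u} => x) := by
  intro x
  by_contra hcon
  obtain ⟨h1, -, -, h4, h5, h6, -, -⟩ := Pool.Agent.Lib.MP_c5d73d_lc.F.H62.roapi.{u} Sw.{u}
  set a := pos (fun x : H1.RO Sw.{u} => x) x ⊔ pos (fun x : H1.RO Sw.{u} => x) (cpl x) with ha
  have hne : aᶜ ≠ ⊥ := by
    intro h
    apply hcon
    rw [← compl_compl a, h, compl_bot]
  obtain ⟨B0, hB0⟩ := h5 _ hne
  choose F hF1 hF2 using fun (n : ℕ) (p : Sw.{u}) => exists_dec (x n) p
  let p : ℕ → Sw.{u} := fun n => Nat.rec B0 (fun n p => F n p) n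
  obtain ⟨B, hB⟩ := exists_pseudo p fun n => hF1 n (p n)
  have hdec : ∀ n, pr B ≤ x n ∨ pr B ≤ (x n)ᶜ := by
    intro n
    have h7 : pr B ≤ pr (F n (p n)) := h6 _ _ (hB (n + 1))
    rcases hF2 n (p n) with h | h
    · exact Or.inl (h7.trans h)
    · exact Or.inr (h7.trans h)
  have hBa : pr B ≤ aᶜ := (h6 _ _ (hB 0)).trans hB0
  have fin : ∀ (s : Set ℕ) (hs : s.Infinite), s ⊆ B.S →
      (pr (mkSw.{u} s hs) ≤ a) → False := by
    intro s hs hsB hle
    have h7 : mkSw.{u} s hs ≤ B := by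
      rw [Sw.le_def, mkSw_S, Set.sdiff_eq_empty.2 hsB]
      exact Set.finite_empty
    have h8 : pr (mkSw.{u} s hs) ≤ aᶜ := (h6 _ _ h7).trans hBa
    apply h4 (mkSw.{u} s hs)
    refine le_bot_iff.1 ?_
    rw [← inf_compl_eq_bot (a := a)]
    exact le_inf hle h8
  by_cases hs : {n | n ∈ B.S ∧ pr B ≤ x n}.Infinite
  · refine fin _ hs (fun n hn => hn.1) ?_
    rw [ha]
    refine le_trans ?_ le_sup_left
    unfold pos
    refine le_iSup_of_le (mkSw.{u} _ hs) (le_inf le_rfl (le_iInf₂ fun n hn => ?_))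
    rw [mkSw_S] at hn
    refine le_trans (h6 _ _ ?_) hn.2
    rw [Sw.le_def, mkSw_S, Set.sdiff_eq_empty.2 (fun n hn => hn.1)]
    exact Set.finite_empty
  · have hs' : {n | n ∈ B.S ∧ ¬ pr B ≤ x n}.Infinite := by
      intro hfin
      apply B.infinite
      refine ((Set.not_infinite.1 hs).union hfin).subset fun n hn => ?_
      by_cases h : pr B ≤ x n
      · exact Or.inl ⟨hn, h⟩
      · exact Or.inr ⟨hn, h⟩
    refine fin _ hs' (fun n hn => hn.1) ?_
    rw [ha]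
    refine le_trans ?_ le_sup_right
    unfold pos
    refine le_iSup_of_le (mkSw.{u} _ hs') (le_inf le_rfl (le_iInf₂ fun n hn => ?_))
    rw [mkSw_S] at hn
    refine le_trans (h6 _ B ?_) ((hdec n).resolve_left hn.2)
    rw [Sw.le_def, mkSw_S, Set.sdiff_eq_empty.2 (fun n hn => hn.1)]
    exact Set.finite_empty

theorem sgs : SgsStatement.{u} := ⟨sgc_sw, pp_id⟩

end Pool.Agent.Lib.MP_6d445e_gt.H95
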