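import Pool.Agent.Lib.MP_6d445e_gt.W.Iface4

/-!
# DOMW: a function from an earlier stage dominates all functions with names in `N`
-/

set_option autoImplicit false

universe u v w

open Cardinal Filter

namespace Pool.Agent.Lib.MP_6d445e_gt.H95

open Pool.Agent.Lib.MP_100a6c_lc
open Pool.Agent.Lib.MP_c5d73d_lc.F (pr)
open Pool.Agent.Lib.MP_e6fef2_lc

section

variable {A : Type u} [CompleteBooleanAlgebra A] {M : Set A}

theorem sig_bot (hM : SigC M) : ⊥ ∈ M := by
  have := hM.compl _ hM.top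
  rwa [compl_top] at this

theorem sig_sup (hM : SigC M) {x y : A} (hx : x ∈ M) (hy : y ∈ M) : x ⊔ y ∈ M := by
  have h := hM.sup (fun n => if n = 0 then x else y) (by
    intro n
    split_ifs
    · exact hx
    · exact hy)
  have e : (⨆ n : ℕ, if n = 0 then x else y) = x ⊔ y := by
    apply le_antisymm
    · refine iSup_le fun n => ?_
      split_ifs
      · exact le_sup_left
      · exact le_sup_right
    · refine sup_le ?_ ?_
      · exact le_iSup_of_le 0 (by simp)
      · exact le_iSup_of_le 1 (by simp)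
  rwa [e] at h

theorem sig_inf (hM : SigC M) {x y : A} (hx : x ∈ M) (hy : y ∈ M) : x ⊓ y ∈ M := by
  have := hM.compl _ (sig_sup hM (hM.compl _ hx) (hM.compl _ hy))
  rwa [compl_sup, compl_compl, compl_compl] at this

theorem sig_finf (hM : SigC M) {T : Type*} (s : Finset T) (a : T → A) (h : ∀ t ∈ s, a t ∈ M) :
    (⨅ t ∈ s, a t) ∈ M := by
  classical
  induction s using Finset.induction_on with
  | empty => simpa using hM.top
  | insert t s hi ih =>
    rw [Finset.iInf_insert]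
    exact sig_inf hM (h t (Finset.mem_insert_self _ _))
      (ih fun t' ht' => h t' (Finset.mem_insert_of_mem ht'))

theorem sig_fsup (hM : SigC M) {T : Type*} (s : Finset T) (a : T → A) (h : ∀ t ∈ s, a t ∈ M) :
    (⨆ t ∈ s, a t) ∈ M := by
  classical
  induction s using Finset.induction_on with
  | empty => simpa using sig_bot hM
  | insert t s hi ih =>
    rw [Finset.iSup_insert]
    exact sig_sup hM (h t (Finset.mem_insert_self _ _))
      (ih fun t' ht' => h t' (Finset.mem_insert_of_mem ht'))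

/-- The name of the least `v` with `b v` (zero if there is none). -/
def lf (b : ℕ → A) (v : ℕ) : A :=
  (b v ⊓ ⨅ w ∈ Finset.range v, (b w)ᶜ) ⊔ (if v = 0 then (⨆ w, b w)ᶜ else ⊥)

theorem lf_sig (hM : SigC M) {b : ℕ → A} (hb : ∀ v, b v ∈ M) (v : ℕ) : lf b v ∈ M := by
  unfold lf
  refine sig_sup hM (sig_inf hM (hb v) (sig_finf hM _ _ fun w _ => hM.compl _ (hb w))) ?_
  split_ifs
  · exact hM.compl _ (hM.sup _ hb)
  · exact sig_bot hM

theorem mem_lf1 (g : Ult A) (b : ℕ → A) (v : ℕ) :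
    (b v ⊓ ⨅ w ∈ Finset.range v, (b w)ᶜ) ∈ g ↔ b v ∈ g ∧ ∀ w < v, b w ∉ g := by
  rw [g.mem_inf, g.mem_finset_iInf]
  simp only [Finset.mem_range, g.mem_compl]

theorem mem_lf (b : ℕ → A) : ∀ᶠ g in ae A, (∃! v, lf b v ∈ g) ∧
    ∀ v, lf b v ∈ g → (∃ w, b w ∈ g) → b v ∈ g := by
  filter_upwards [ae_iSup b] with g hg
  have key : ∀ v, lf b v ∈ g ↔ ((b v ∈ g ∧ ∀ w < v, b w ∉ g) ∨ (v = 0 ∧ ∀ w, b w ∉ g)) := by
    intro v
    unfold lf
    rw [g.mem_sup, mem_lf1]
    refine or_congr Iff.rfl ?_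
    split_ifs with h
    · rw [g.mem_compl, hg]
      push Not
      exact ⟨fun h' => ⟨h, h'⟩, fun h' => h'.2⟩
    · exact ⟨fun h' => absurd h' g.not_bot, fun h' => absurd h'.1 h⟩
  classical
  constructor
  · by_cases hex : ∃ w, b w ∈ g
    · refine ⟨Nat.find hex, ?_, ?_⟩
      · show lf b (Nat.find hex) ∈ g
        rw [key]
        exact Or.inl ⟨Nat.find_spec hex, fun w hw => Nat.find_min hex hw⟩
      · intro v hv
        have hv' : lf b v ∈ g := hv
        rw [key] at hv'
        rcases hv' with ⟨h1, h2⟩ | ⟨-, h2⟩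
        · refine le_antisymm ?_ (Nat.find_min' hex h1)
          by_contra hcon
          exact h2 _ (not_le.1 hcon) (Nat.find_spec hex)
        · exact absurd (Nat.find_spec hex) (h2 _)
    · push Not at hex
      refine ⟨0, ?_, ?_⟩
      · show lf b 0 ∈ g
        rw [key]
        exact Or.inr ⟨rfl, hex⟩
      · intro v hv
        have hv' : lf b v ∈ g := hv
        rw [key] at hv'
        rcases hv' with ⟨h1, h2⟩ | ⟨h1, -⟩
        · exact absurd h1 (hex v)
        · exact h1
  · intro v hv hex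
    rw [key] at hv
    rcases hv with ⟨h1, -⟩ | ⟨-, h2⟩
    · exact h1
    · obtain ⟨w, hw⟩ := hex
      exact absurd hw (h2 w)

theorem fv_eq' {F : ℕ → ℕ → A} {g : Ult A} {n k : ℕ} (hu : ∃! k, F n k ∈ g) (hk : F n k ∈ g) :
    fv F g n = k := by
  have h : {k' | F n k' ∈ g} = {k} := by
    ext k'
    simp only [Set.mem_ofPred_eq, Set.mem_singleton_iff]
    exact ⟨fun h => hu.unique h hk, fun h => h ▸ hk⟩
  unfold fv
  rw [h, csInf_singleton]

end

theorem domw (hL : LocwStatement.{u}) : DomwStatement.{u} := by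
  intro κ L _ A _ f ι M hG i hUC hlim
  obtain ⟨-, hcount, hcc, -, -, hfun, -⟩ := all_club.{u}
  have h1 := hL κ L A f ι M hG i hUC hlim
  have h2 : ∀ᶠ N in club, ∀ n k : ℕ, ∀ H : ℕ → ℕ → A i, In N H → In N (H n k) :=
    hcc _ fun n => hcc _ fun k => hfun _ _ (fun H : ℕ → ℕ → A i => H n k)
  filter_upwards [hcount, h1, h2] with N hN hloc hcl s hs
  obtain ⟨j, hj, hloc⟩ := hloc s hs
  have hf : IsCE (f j i) := hG.ch.ce j i hj.le
  have hσ := hG.sig j
  have hcD : {H : ℕ → ℕ → A i | In N H ∧ IsFN H}.Countable := by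
    refine Set.Countable.mono (s₂ := {H : ℕ → ℕ → A i | In N H}) (fun H hH => hH.1) ?_
    refine Set.Countable.preimage_of_injOn
      (f := fun H : ℕ → ℕ → A i => (⟨ℕ → ℕ → A i, H⟩ : El.{u})) hN ?_
    intro H _ H' _ h
    simpa using h
  rcases Set.eq_empty_or_nonempty {H : ℕ → ℕ → A i | In N H ∧ IsFN H} with he | hne
  · refine ⟨j, hj, fun _ => lf fun _ => ⊤, ?_, fun n k => lf_sig hσ (fun _ => hσ.top) k, ?_⟩
    · refine (mem_lf (fun _ => (⊤ : A j))).mono fun g hg n => hg.1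
    · intro H hH hH'
      exact absurd (show H ∈ {H : ℕ → ℕ → A i | In N H ∧ IsFN H} from ⟨hH, hH'⟩)
        (Set.eq_empty_iff_forall_notMem.1 he H)
  · obtain ⟨Hs, hHs⟩ := hcD.exists_eq_range hne
    have hHsm : ∀ l, In N (Hs l) ∧ IsFN (Hs l) := fun l => by
      have : Hs l ∈ {H : ℕ → ℕ → A i | In N H ∧ IsFN H} := by rw [hHs]; exact ⟨l, rfl⟩
      exact this
    choose H' hH'M hH' using fun l n k => hloc (Hs l n k) (hcl n k _ (hHsm l).1)
    let b : ℕ → ℕ → A j := fun p v => ⨅ l ∈ Finset.range (p.unpair.1 + 1),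
      ⨅ k' ∈ Finset.range (p.unpair.2 + 1), ⨆ q ∈ Finset.range (v + 1),
        H' l (Nat.pair p.unpair.1 k') q
    have hbM : ∀ p v, b p v ∈ M j := fun p v => sig_finf hσ _ _ fun l _ =>
      sig_finf hσ _ _ fun k' _ => sig_fsup hσ _ _ fun q _ => hH'M _ _ _
    have hbg : ∀ (g : Ult (A j)) n k v, b (Nat.pair n k) v ∈ g ↔
        ∀ l ≤ n, ∀ k' ≤ k, ∃ q ≤ v, H' l (Nat.pair n k') q ∈ g := by
      intro g n k v
      show (⨅ l ∈ Finset.range ((Nat.pair n k).unpair.1 + 1),
        ⨅ k' ∈ Finset.range ((Nat.pair n k).unpair.2 + 1), ⨆ q ∈ Finset.range (v + 1),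
        H' l (Nat.pair (Nat.pair n k).unpair.1 k') q) ∈ g ↔ _
      have e : ∀ l, (⨅ k' ∈ Finset.range (k + 1), ⨆ q ∈ Finset.range (v + 1),
          H' l (Nat.pair n k') q) ∈ g ↔ ∀ k' ∈ Finset.range (k + 1), ∃ q ∈ Finset.range (v + 1),
          H' l (Nat.pair n k') q ∈ g := by
        intro l
        rw [g.mem_finset_iInf]
        exact forall₂_congr fun k' _ => g.mem_finset_iSup _ _
      rw [Nat.unpair_pair, g.mem_finset_iInf]
      refine (forall₂_congr fun l _ => e l).trans ?_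
      simp only [Finset.mem_range, Nat.lt_succ_iff]
    refine ⟨j, hj, fun p => lf (b p), ?_, fun p k => lf_sig hσ (hbM p) k, ?_⟩
    · exact ae_all fun p => (mem_lf (b p)).mono fun g hg => hg.1
    · intro H hH hHf
      have hHm : H ∈ Set.range Hs := by rw [← hHs]; exact ⟨hH, hHf⟩
      obtain ⟨l, rfl⟩ := hHm
      have ha : ∀ᶠ g in ae (A i), ∀ l, ∀ n, ∃! k, Hs l n k ∈ g := ae_all fun l => (hHsm l).2
      have hb := ae_pull hf (P := fun g => ∀ p, (∃! v, lf (b p) v ∈ g) ∧
        ∀ v, lf (b p) v ∈ g → (∃ w, b p w ∈ g) → b p v ∈ g) (ae_all fun p => mem_lf (b p))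
      filter_upwards [ha, hb] with g ga gb gs gg
      have gH : ∀ l n k, H' l n k ∈ g.pull hf ↔ Hs l n k ∈ g := by
        intro l n k
        have e := hH' l n k
        rw [Ult.mem_pull]
        constructor
        · intro h
          have h3 : ι i (pr s) ⊓ (gen (A i) N ⊓ f j i (H' l n k)) ∈ g :=
            g.mem_inf.2 ⟨gs, g.mem_inf.2 ⟨gg, h⟩⟩
          rw [← e] at h3
          exact (g.mem_inf.1 (g.mem_inf.1 h3).2).2
        · intro h
          have h3 : ι i (pr s) ⊓ (gen (A i) N ⊓ Hs l n k) ∈ g :=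
            g.mem_inf.2 ⟨gs, g.mem_inf.2 ⟨gg, h⟩⟩
          rw [e] at h3
          exact (g.mem_inf.1 (g.mem_inf.1 h3).2).2
      have gfv : ∀ l n, Hs l n (fv (Hs l) g n) ∈ g := by
        intro l n
        obtain ⟨k, hk, hu⟩ := ga l n
        have hk' : Hs l n k ∈ g := hk
        rw [fv_eq' (ga l n) hk']
        exact hk'
      refine ⟨l, fun n hn k k' hk' => ?_⟩
      have hF : fv (fun n k => f j i (lf (b n) k)) g (Nat.pair n k) =
          fv (fun p => lf (b p)) (g.pull hf) (Nat.pair n k) := rfl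
      obtain ⟨v, hv, -⟩ := (gb (Nat.pair n k)).1
      have hv' : lf (b (Nat.pair n k)) v ∈ g.pull hf := hv
      rw [hF, fv_eq' (F := fun p => lf (b p)) (gb (Nat.pair n k)).1 hv']
      have hex : ∃ w, b (Nat.pair n k) w ∈ g.pull hf := by
        refine ⟨(Finset.range (n + 1) ×ˢ Finset.range (k + 1)).sup
          fun x => fv (Hs x.1) g (Nat.pair n x.2), ?_⟩
        rw [hbg]
        intro l' hl' k'' hk''
        refine ⟨fv (Hs l') g (Nat.pair n k''), ?_, (gH _ _ _).2 (gfv _ _)⟩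
        exact Finset.le_sup (f := fun x : ℕ × ℕ => fv (Hs x.1) g (Nat.pair n x.2))
          (b := (l', k'')) (by
            rw [Finset.mem_product, Finset.mem_range, Finset.mem_range]
            constructor <;> simp only <;> omega)
      have h5 := (gb (Nat.pair n k)).2 v hv' hex
      rw [hbg] at h5
      obtain ⟨q, hq, hq'⟩ := h5 l hn k' hk'
      have h6 := (gH _ _ _).1 hq'
      rw [fv_eq' (ga l (Nat.pair n k')) h6]
      exact hq

end Pool.Agent.Lib.MP_6d445e_gt.H95
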