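import Pool.Agent.Lib.MP_6d445e_gt.Iface

/-!
# LB: interpretations following a given name
-/

universe u v w

open Cardinal Filter

namespace Pool.Agent.Lib.MP_6d445e_gt.H95

open Pool.Agent.Lib.MP_100a6c_lc
open Pool.Agent.Lib.MP_e6fef2_lc

section

variable {A C : Type u} [CompleteBooleanAlgebra A] [CompleteBooleanAlgebra C]

/-- Boolean inequalities can be checked in all ultrafilters. -/
theorem le_of_ult {a b : A} (h : ∀ g : Ult A, a ∈ g → b ∈ g) : a ≤ b :=
  le_of_ae (Filter.Eventually.of_forall h)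

theorem eq_of_ult {a b : A} (h : ∀ g : Ult A, a ∈ g ↔ b ∈ g) : a = b :=
  eq_of_ae (Filter.Eventually.of_forall h)

/-- The Boolean value of an equivalence. -/
def bi (a b : A) : A := (a ⊓ b) ⊔ (aᶜ ⊓ bᶜ)

theorem mem_bi {g : Ult A} {a b : A} : bi a b ∈ g ↔ (a ∈ g ↔ b ∈ g) := by
  unfold bi
  rw [g.mem_sup, g.mem_inf, g.mem_inf, g.mem_compl, g.mem_compl]
  tauto

omit [CompleteBooleanAlgebra A] in
theorem agr_zero (f : A → C) (z : ℕ → A) (x : ℕ → C) : agr f z x 0 = ⊤ := by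
  simp [agr]

omit [CompleteBooleanAlgebra A] in
theorem agr_succ (f : A → C) (z : ℕ → A) (x : ℕ → C) (k : ℕ) :
    agr f z x (k + 1) = agr f z x k ⊓ bi (f (z k)) (x k) := by
  unfold agr bi
  exact Nat.iInf_lt_succ _ k

omit [CompleteBooleanAlgebra A] in
theorem mem_agr (f : A → C) (z : ℕ → A) (x : ℕ → C) (k : ℕ) (h : Ult C) :
    agr f z x k ∈ h ↔ ∀ n < k, (f (z n) ∈ h ↔ x n ∈ h) := by
  induction k with
  | zero => simp [agr_zero, h.mem_top]
  | succ k ih =>
    rw [agr_succ, h.mem_inf, ih, mem_bi]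
    constructor
    · rintro ⟨h1, h2⟩ n hn
      rcases Nat.lt_succ_iff_lt_or_eq.1 hn with hn | rfl
      · exact h1 n hn
      · exact h2
    · intro h1
      exact ⟨fun n hn => h1 n (by omega), h1 k (by omega)⟩

theorem AddM.mono {f : A → C} {π : C → A} (hπ : AddM f π) {c c' : C} (h : c ≤ c') :
    π c ≤ π c' := by
  rw [← sup_eq_right.2 h, hπ.sup]
  exact le_sup_left

/-- One step of the recursion. -/
def nextz (π : C → A) (c u : C) (x : C) (y : A) : A :=
  (y ⊓ π (c ⊓ u ⊓ x)) ⊔ (yᶜ ⊓ (π (c ⊓ u ⊓ xᶜ))ᶜ)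

theorem lin_bi {f : A → C} (hf : IsCE f) {π : C → A} (hπ : AddM f π) (c : C) (a : A) (x : C) :
    π (c ⊓ bi (f a) x) = (a ⊓ π (c ⊓ x)) ⊔ (aᶜ ⊓ π (c ⊓ xᶜ)) := by
  have e : c ⊓ bi (f a) x = (c ⊓ x ⊓ f a) ⊔ (c ⊓ xᶜ ⊓ f aᶜ) := by
    rw [hf.compl]
    apply eq_of_ult
    intro g
    simp only [g.mem_inf, g.mem_sup, g.mem_compl, mem_bi]
    tauto
  rw [e, hπ.sup, hπ.lin, hπ.lin, inf_comm a, inf_comm aᶜ]

theorem step_eq {f : A → C} (hf : IsCE f) {π : C → A} (hπ : AddM f π) (c u x : C) (y : A) :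
    π (c ⊓ (u ⊓ bi (f (nextz π c u x y)) x)) = π (c ⊓ u) := by
  have e1 : π (c ⊓ u) = π (c ⊓ u ⊓ x) ⊔ π (c ⊓ u ⊓ xᶜ) := by
    rw [← hπ.sup, ← inf_sup_left, sup_compl_eq_top, inf_top_eq]
  rw [← inf_assoc, lin_bi hf hπ, e1]
  unfold nextz
  apply eq_of_ult
  intro g
  simp only [g.mem_inf, g.mem_sup, g.mem_compl]
  tauto

/-- The values of `agr f z x k` and the interpretation. -/
def ustep (f : A → C) (π : C → A) (c : C) (x : ℕ → C) (y : ℕ → A) (k : ℕ) : C :=
  Nat.rec ⊤ (fun k u => u ⊓ bi (f (nextz π c u (x k) (y k))) (x k)) k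

/-- The interpretation. -/
def zint (f : A → C) (π : C → A) (c : C) (x : ℕ → C) (y : ℕ → A) (k : ℕ) : A :=
  nextz π c (ustep f π c x y k) (x k) (y k)

theorem ustep_succ (f : A → C) (π : C → A) (c : C) (x : ℕ → C) (y : ℕ → A) (k : ℕ) :
    ustep f π c x y (k + 1) = ustep f π c x y k ⊓ bi (f (zint f π c x y k)) (x k) := rfl

theorem agr_zint (f : A → C) (π : C → A) (c : C) (x : ℕ → C) (y : ℕ → A) (k : ℕ) :
    agr f (zint f π c x y) x k = ustep f π c x y k := by
  induction k with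
  | zero => exact agr_zero _ _ _
  | succ k ih => rw [agr_succ, ih, ustep_succ]

theorem pi_zint {f : A → C} (hf : IsCE f) {π : C → A} (hπ : AddM f π) (c : C) (x : ℕ → C)
    (y : ℕ → A) (k : ℕ) : π (c ⊓ agr f (zint f π c x y) x k) = π c := by
  rw [agr_zint]
  induction k with
  | zero => change π (c ⊓ ⊤) = π c; rw [inf_top_eq]
  | succ k ih =>
    rw [ustep_succ, ← ih]
    exact step_eq hf hπ c _ (x k) (y k)

theorem follow {f : A → C} (hf : IsCE f) {π : C → A} (hπ : AddM f π) (c : C) (x : ℕ → C)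
    (y : ℕ → A) (k : ℕ) :
    π (c ⊓ agr f y x k) ≤ agr (fun a : A => a) y (zint f π c x y) k := by
  induction k with
  | zero => rw [agr_zero, agr_zero]; exact le_top
  | succ k ih =>
    have h1 : π (c ⊓ agr f y x (k + 1)) ≤ agr (fun a : A => a) y (zint f π c x y) k := by
      refine (AddM.mono hπ ?_).trans ih
      rw [agr_succ]
      exact inf_le_inf_left _ inf_le_left
    have h2 : π (c ⊓ agr f y x (k + 1)) ≤
        π (c ⊓ ustep f π c x y k ⊓ bi (f (y k)) (x k)) := by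
      rw [← inf_eq_left.2 h1, ← hπ.lin]
      apply AddM.mono hπ
      apply le_of_ult
      intro g hg
      rw [← agr_zint]
      rw [g.mem_inf, g.mem_inf, mem_agr] at hg
      obtain ⟨⟨hc, hyx⟩, hyz⟩ := hg
      have hyz' : agr (fun a : A => a) y (zint f π c x y) k ∈ g.pull hf := hyz
      rw [mem_agr] at hyz'
      rw [g.mem_inf, g.mem_inf, mem_agr, mem_bi]
      refine ⟨⟨hc, fun n hn => ?_⟩, hyx k (by omega)⟩
      have e1 := hyz' n hn
      have e2 := hyx n (by omega)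
      rw [Ult.mem_pull, Ult.mem_pull] at e1
      rw [← e1, e2]
    rw [lin_bi hf hπ] at h2
    rw [agr_succ (fun a : A => a)]
    refine le_inf h1 (h2.trans ?_)
    apply le_of_ult
    intro g hg
    rw [mem_bi]
    unfold zint nextz
    simp only [g.mem_inf, g.mem_sup, g.mem_compl] at hg ⊢
    tauto

end

theorem lb : LbStatement.{u} := by
  intro A C _ _ f hf π hπ c x y
  refine ⟨zint f π c x y, ?_, fun k => follow hf hπ c x y k⟩
  unfold itp
  refine le_iInf fun k => ?_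
  rw [pi_zint hf hπ]

end Pool.Agent.Lib.MP_6d445e_gt.H95
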