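import Pool.Agent.Lib.MP_6d445e_gt.Iface

/-!
# LP: the map `lp t`
-/

universe u v w

open Cardinal Filter

namespace Pool.Agent.Lib.MP_6d445e_gt.H95

open Pool.Agent.Lib.MP_100a6c_lc
open Pool.Agent.Lib.MP_e6fef2_lc

section

variable {A C : Type u} [CompleteBooleanAlgebra A] [CompleteBooleanAlgebra C]

theorem prj_gc' {f : A → C} (hf : IsCE f) : GaloisConnection (prj f) f :=
  fun c a => (all_alg A C f hf).2.2.2.2.2.2.2.2.2.2.1 c a

theorem prj_lin' {f : A → C} (hf : IsCE f) (c : C) (a : A) : prj f (c ⊓ f a) = prj f c ⊓ a :=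
  (all_alg A C f hf).2.2.2.2.2.2.2.2.2.2.2.2.2.2.2.2.1 c a

theorem prj_bot' {f : A → C} (hf : IsCE f) (c : C) : prj f c = ⊥ ↔ c = ⊥ :=
  (all_alg A C f hf).2.2.2.2.2.2.2.2.2.2.2.2.2.2.2.2.2.1 c

theorem prj_sup' {f : A → C} (hf : IsCE f) (c c' : C) : prj f (c ⊔ c') = prj f c ⊔ prj f c' :=
  (prj_gc' hf).l_sup

theorem prj_mono' {f : A → C} (hf : IsCE f) {c c' : C} (h : c ≤ c') : prj f c ≤ prj f c' :=
  (prj_gc' hf).monotone_l h

/-- The map `lp t` for general nodes. -/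
noncomputable def lpg (f : A → C) (nd : List ℕ → C) (t : List ℕ) (c : C) : A :=
  ⨅ m, ⨆ k, ⨆ _ : m ≤ k, prj f (c ⊓ nd (t ++ [k]))

theorem mem_lpg (f : A → C) (nd : List ℕ → C) (t : List ℕ) (c : C) : ∀ᶠ g in ae A,
    lpg f nd t c ∈ g ↔ ∀ m, ∃ k, m ≤ k ∧ prj f (c ⊓ nd (t ++ [k])) ∈ g := by
  have h1 := ae_iInf (A := A) fun m => ⨆ k, ⨆ _ : m ≤ k, prj f (c ⊓ nd (t ++ [k]))
  have h2 := ae_all (A := A) fun m : ℕ =>
    ae_iSup (A := A) fun k : ℕ => ⨆ _ : m ≤ k, prj f (c ⊓ nd (t ++ [k]))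
  have h3 := ae_all (A := A) fun m : ℕ => ae_all fun k : ℕ =>
    ae_iSup (A := A) fun _ : m ≤ k => prj f (c ⊓ nd (t ++ [k]))
  filter_upwards [h1, h2, h3] with g g1 g2 g3
  unfold lpg
  rw [g1]
  refine forall_congr' fun m => ?_
  rw [g2 m]
  refine exists_congr fun k => ?_
  rw [g3 m k, exists_prop]

theorem addM_lpg {f : A → C} (hf : IsCE f) (nd : List ℕ → C) (t : List ℕ) :
    AddM f (lpg f nd t) := by
  refine ⟨fun c c' => ?_, fun c a => ?_⟩
  · apply eq_of_ae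
    filter_upwards [mem_lpg f nd t (c ⊔ c'), mem_lpg f nd t c, mem_lpg f nd t c'] with g h1 h2 h3
    rw [g.mem_sup, h1, h2, h3]
    have e : ∀ k, prj f ((c ⊔ c') ⊓ nd (t ++ [k])) ∈ g ↔
        prj f (c ⊓ nd (t ++ [k])) ∈ g ∨ prj f (c' ⊓ nd (t ++ [k])) ∈ g := by
      intro k
      rw [inf_sup_right, prj_sup' hf, g.mem_sup]
    constructor
    · intro h
      by_contra hcon
      push Not at hcon
      obtain ⟨⟨m, hm⟩, m', hm'⟩ := hcon
      obtain ⟨k, hk, h⟩ := h (max m m')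
      rcases (e k).1 h with h | h
      · exact hm k (le_trans (le_max_left _ _) hk) h
      · exact hm' k (le_trans (le_max_right _ _) hk) h
    · rintro (h | h) m
      · obtain ⟨k, hk, h⟩ := h m
        exact ⟨k, hk, (e k).2 (Or.inl h)⟩
      · obtain ⟨k, hk, h⟩ := h m
        exact ⟨k, hk, (e k).2 (Or.inr h)⟩
  · apply eq_of_ae
    filter_upwards [mem_lpg f nd t (c ⊓ f a), mem_lpg f nd t c] with g h1 h2
    have e : ∀ k, prj f (c ⊓ f a ⊓ nd (t ++ [k])) ∈ g ↔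
        prj f (c ⊓ nd (t ++ [k])) ∈ g ∧ a ∈ g := by
      intro k
      rw [inf_right_comm, prj_lin' hf, g.mem_inf]
    rw [g.mem_inf, h1, h2]
    constructor
    · intro h
      refine ⟨fun m => ?_, ?_⟩
      · obtain ⟨k, hk, h⟩ := h m
        exact ⟨k, hk, ((e k).1 h).1⟩
      · obtain ⟨k, hk, h⟩ := h 0
        exact ((e k).1 h).2
    · rintro ⟨h, ha⟩ m
      obtain ⟨k, hk, h⟩ := h m
      exact ⟨k, hk, (e k).2 ⟨h, ha⟩⟩

theorem prj_eq_lpg {f : A → C} (hf : IsCE f) (nd : List ℕ → C) {X : Type u} (G : X → C)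
    (T : X → List ℕ → A) (hden : ∀ c : C, c ≠ ⊥ → ∃ (b : A) (x : X), b ≠ ⊥ ∧ f b ⊓ G x ≤ c)
    (htop : ∀ x, prj f (G x) = ⊤) (hT : ∀ x t, prj f (G x ⊓ nd t) = T x t)
    (hmil : ∀ x, ∀ᶠ g in ae A, IsMil {t | T x t ∈ g}) (c : C) :
    prj f c = ⨆ t, lpg f nd t c := by
  refine le_antisymm ?_ ?_
  · by_contra hcon
    have hb : prj f c ⊓ (⨆ t, lpg f nd t c)ᶜ ≠ ⊥ := by
      intro h
      apply hcon
      rw [← compl_compl (⨆ t, lpg f nd t c), le_compl_iff_disjoint_right, disjoint_iff]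
      exact h
    set b := prj f c ⊓ (⨆ t, lpg f nd t c)ᶜ with hbdef
    have h1 : c ⊓ f b ≠ ⊥ := by
      intro h
      have h2 := (prj_bot' hf (c ⊓ f b)).2 h
      rw [prj_lin' hf] at h2
      apply hb
      rw [← h2, hbdef, ← inf_assoc, inf_idem]
    obtain ⟨b', x, hb', hx⟩ := hden _ h1
    have h3 : b' ≤ b := by
      have h4 := prj_mono' hf hx
      rw [prj_lin' hf, inf_comm, prj_lin' hf, htop, top_inf_eq] at h4
      exact h4.trans inf_le_right
    have h4 : ∀ s, b' ⊓ T x s ≤ prj f (c ⊓ nd s) := by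
      intro s
      have h5 : G x ⊓ nd s ⊓ f b' ≤ c ⊓ nd s := by
        refine le_inf ?_ (inf_le_left.trans inf_le_right)
        refine le_trans (le_trans (le_inf inf_le_right (inf_le_left.trans inf_le_left)) hx)
          inf_le_left
      have h6 := prj_mono' hf h5
      rw [prj_lin' hf, hT, inf_comm] at h6
      exact h6
    obtain ⟨g, hg, hm, hlp⟩ := exists_of_ae
      ((hmil x).and (ae_all (A := A) fun t : List ℕ => mem_lpg f nd t c)) hb'
    obtain ⟨t, -, ht⟩ := hm.spl [] hm.nil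
    have h7 : lpg f nd t c ∈ g := by
      rw [hlp t]
      intro m
      obtain ⟨k, hk, h⟩ := ht m
      exact ⟨k, hk, g.mono (h4 _) (g.mem_inf.2 ⟨hg, h⟩)⟩
    have h8 : b ∈ g := g.mono h3 hg
    rw [hbdef, g.mem_inf, g.mem_compl] at h8
    exact h8.2 (g.mono (le_iSup (fun t => lpg f nd t c) t) h7)
  · refine iSup_le fun t => ?_
    apply le_of_ae
    filter_upwards [mem_lpg f nd t c] with g hg h
    obtain ⟨k, -, h⟩ := hg.1 h 0
    exact g.mono (prj_mono' hf inf_le_left) h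

theorem cmp_aux {t t' : List ℕ} {k1 k2 : ℕ} (hk : k1 ≠ k2) (h1 : Cmp t' (t ++ [k1]))
    (h2 : Cmp t' (t ++ [k2])) : t' <+: t := by
  have key : ∀ l : List ℕ, t ++ [k1] <+: l → t ++ [k2] <+: l → False := by
    intro l ha hb
    have hc : t ++ [k1] <+: t ++ [k2] := List.prefix_of_prefix_length_le ha hb (by simp)
    have he := hc.eq_of_length (by simp)
    have := List.append_cancel_left he
    simp at this
    exact hk this
  have key2 : ∀ k k' : ℕ, k ≠ k' → t ++ [k] <+: t' → t' <+: t ++ [k'] → False := by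
    intro k k' hkk ha hb
    have hc := ha.trans hb
    have he := hc.eq_of_length (by simp)
    have := List.append_cancel_left he
    simp at this
    exact hkk this
  have key3 : ∀ k, t' <+: t ++ [k] → t' = t ++ [k] ∨ t' <+: t := by
    intro k h
    rw [List.prefix_concat_iff] at h
    exact h
  rcases h1 with h1 | h1
  · rcases key3 k1 h1 with rfl | h
    · exfalso
      rcases h2 with h2 | h2
      · exact key _ h2 (List.prefix_refl _)
      · exact key _ (List.prefix_refl _) h2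
    · exact h
  · exfalso
    rcases h2 with h2 | h2
    · exact key2 k1 k2 hk h1 h2
    · exact key _ h1 h2

theorem pre_of_lpg {f : A → C} (hf : IsCE f) (nd : List ℕ → C)
    (hinc : ∀ t t', ¬ Cmp t t' → nd t ⊓ nd t' = ⊥) (t t' : List ℕ) (c : C) (hc : c ≤ nd t')
    (hlp : lpg f nd t c ≠ ⊥) : t' <+: t := by
  obtain ⟨g, hg, h⟩ := exists_of_ae (mem_lpg f nd t c) hlp
  have key : ∀ k, prj f (c ⊓ nd (t ++ [k])) ∈ g → Cmp t' (t ++ [k]) := by
    intro k hk
    by_contra hcon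
    have h1 : c ⊓ nd (t ++ [k]) = ⊥ := by
      refine le_bot_iff.1 ?_
      rw [← hinc _ _ hcon]
      exact inf_le_inf_right _ hc
    rw [h1, (prj_bot' hf _).2 rfl] at hk
    exact g.not_bot hk
  obtain ⟨k1, -, hk1⟩ := h.1 hg 0
  obtain ⟨k2, h12, hk2⟩ := h.1 hg (k1 + 1)
  exact cmp_aux (by omega : k1 ≠ k2) (key k1 hk1) (key k2 hk2)

end

theorem lp (hN : NdStatement.{u}) (hM : MxfStatement.{u}) : LpStatement.{u} := by
  intro A _
  obtain ⟨hne, -, -, hinc, -, -, htau, -⟩ := hN A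
  obtain ⟨-, hden, htop, -, -, -, -⟩ := hM A
  have hE : IsCE (mE A) := (all_tw1 A (MX A) (MQ A)).1
  exact ⟨fun t => addM_lpg hE ND t,
    fun c => prj_eq_lpg hE ND (fun τ : MX A => mG τ) (fun τ t => τ.1 t) hden htop htau
      (fun τ => τ.2) c,
    fun t t' c hc h => pre_of_lpg hE ND hinc t t' c hc h⟩

end Pool.Agent.Lib.MP_6d445e_gt.H95
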