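import Pool.Agent.Lib.MP_6d445e_gt.W.Iface4

/-!
# OKGW: stages which are ok form a good chain
-/

set_option autoImplicit false

universe u v w

open Cardinal Filter

namespace Pool.Agent.Lib.MP_6d445e_gt.H95

open Pool.Agent.Lib.MP_100a6c_lc
open Pool.Agent.Lib.MP_c5d73d_lc.F (pr)
open Pool.Agent.Lib.MP_e6fef2_lc

theorem okgw (hP : PriStatement.{u}) : OkgwStatement.{u} := by
  intro κ I _ _ X L _ φ hφ hdc hok
  have hA : AlgStatement.{u} := all_alg
  have hA2 : Alg2Statement.{u} := all_alg2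
  -- the top at stage `j`
  have hg := fun j => (hok j).good
  have hid : ∀ (j : L) (a : (X (φ j)).A), (X (φ j)).mp (φ j) ⟨(X (φ j)).A, a⟩ = a :=
    fun j => (hok j).id
  have hfid : ∀ j, (fm φ (fun l => X (φ l)) j j) = fun a => a := fun j => funext (hid j)
  have hce : ∀ i j, i ≤ j → IsCE (fm φ (fun l => X (φ l)) i j) := by
    intro i j hij
    rcases hij.lt_or_eq with h | rfl
    · exact (hg j).top.ce ⟨φ i, hφ h⟩
    · rw [hfid]; exact H36.isCE_id
  have hcomp : ∀ i j k, i ≤ j → j ≤ k → ∀ a, fm φ (fun l => X (φ l)) j k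
      (fm φ (fun l => X (φ l)) i j a) = fm φ (fun l => X (φ l)) i k a := by
    intro i j k hij hjk a
    rcases hij.lt_or_eq with h | rfl
    · rcases hjk.lt_or_eq with h' | rfl
      · exact (hg k).top.comp ⟨φ i, hφ (h.trans h')⟩ ⟨φ j, hφ h'⟩ (hφ h).le a
      · rw [hfid]
    · rw [hfid]
  have hch : IsCh (fun l => (X (φ l)).A) (fm φ fun l => X (φ l)) := ⟨hce, hid, hcomp⟩
  refine ⟨hch, fun i => (hg i).ιce, ?_, ?_, fun i => (hg i).ιpe, ?_, ?_, fun i => (hg i).sig, ?_,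
    fun i => (hg i).Mcard, fun i => (hg i).Mdm, fun i => (hg i).pp, ?_⟩
  · intro i j hij x
    rcases hij.lt_or_eq with h | rfl
    · exact (hg j).ιcomp ⟨φ i, hφ h⟩ x
    · rw [hfid]
  · intro i j hij
    rcases hij.lt_or_eq with h | rfl
    · exact (hg j).pe ⟨φ i, hφ h⟩
    · rw [hfid]; exact H36.pe_id
  · intro j
    refine H36.tpat_of hA hA2 hch j fun i hi hij q hq => ?_
    exact (hg j).tp (fun n => ⟨φ (i n), hφ (hij n)⟩) (fun m n h => hφ.monotone (hi h)) q hq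
  · intro j hj
    have hne : Nonempty (Set.Iio (φ j)) := by
      have h1 := hj.1
      rw [not_isMin_iff] at h1
      obtain ⟨i, hi⟩ := h1
      exact ⟨⟨φ i, hφ hi⟩⟩
    have hnm : NoMaxOrder (Set.Iio (φ j)) := by
      refine ⟨fun x => ?_⟩
      obtain ⟨l, hl⟩ := hdc j x.1 (le_of_lt x.2)
      have hlj : l < j := hφ.lt_iff_lt.1 (hl ▸ x.2)
      have h1 := hj.2 l
      rw [not_covBy_iff hlj] at h1
      obtain ⟨l', h2, h3⟩ := h1
      exact ⟨⟨φ l', hφ h3⟩, (hl ▸ hφ h2 : x.1 < φ l')⟩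
    intro c hc
    obtain ⟨d, hdc', hd, s, hs, hsne, hds⟩ := (hg j).dp hne hnm c hc
    have hpre : ∀ x : Set.Iio (φ j), ∃ l, l < j ∧ φ l = x.1 := by
      intro x
      obtain ⟨l, hl⟩ := hdc j x.1 (le_of_lt x.2)
      exact ⟨l, hφ.lt_iff_lt.1 (hl ▸ x.2), hl⟩
    refine ⟨d, hdc', hd, φ ⁻¹' (Subtype.val '' s), ?_, ?_, ?_, ?_⟩
    · exact (hs.image _).preimage hφ.injective
    · obtain ⟨x, hx⟩ := hsne
      obtain ⟨l, _, hl⟩ := hpre x
      exact ⟨l, x, hx, hl.symm⟩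
    · rintro l ⟨x, _, hx⟩
      exact hφ.lt_iff_lt.1 (hx ▸ x.2)
    · refine hds.trans (le_antisymm ?_ ?_)
      · refine le_iInf₂ fun l hl => ?_
        obtain ⟨⟨x, hxj⟩, hx, hxl⟩ := hl
        simp only at hxl
        subst hxl
        exact iInf₂_le (⟨φ l, hxj⟩ : Set.Iio (φ j)) hx
      · refine le_iInf₂ fun x hx => ?_
        obtain ⟨l, hlj, hl⟩ := hpre x
        obtain ⟨x, hxj⟩ := x
        simp only at hl
        subst hl
        exact iInf₂_le l (⟨⟨φ l, hxj⟩, hx, rfl⟩ : l ∈ φ ⁻¹' (Subtype.val '' s))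
  · intro i j hij m hm
    rcases hij.lt_or_eq with h | rfl
    · exact (hg j).Mmap ⟨φ i, hφ h⟩ m hm
    · rw [hfid]; exact hm
  · intro i j hij
    rcases hij.lt_or_eq with h | rfl
    · exact (hg j).pres ⟨φ i, hφ h⟩
    · rw [hfid]
      exact (hP _ _ _ H36.isCE_id).2 Function.surjective_id

end Pool.Agent.Lib.MP_6d445e_gt.H95
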